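import Mathlib

set_option autoImplicit false
set_option linter.unusedSectionVars false

/-!
# A closed-range extension although neither range is closed

On `H = ℓ²(ℕ × Bool; ℓ²(ℕ))` we take blockwise restrictions of the diagonal operators with entries
`1/(k+1), 1, 2, 3, …` to the vectors whose coordinates add up to zero.
-/

namespace Pool.Agent.Results.MP_790317_an.RangesNotClosed

open Finset Filter Topology
open scoped ENNReal LinearPMap

/-! ### Definitions -/

section Defs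

variable {H₀ H₁ X Y : Type*} [NormedAddCommGroup H₀] [InnerProductSpace ℂ H₀] [CompleteSpace H₀]
  [NormedAddCommGroup H₁] [InnerProductSpace ℂ H₁] [CompleteSpace H₁]
  [NormedAddCommGroup X] [InnerProductSpace ℂ X] [CompleteSpace X]
  [NormedAddCommGroup Y] [InnerProductSpace ℂ Y] [CompleteSpace Y]

/-- `A_c` and `B_c` are densely defined and `A_c ⊆ -B_c^*` -/
def IsPair (Ac : H₀ →ₗ.[ℂ] H₁) (Bc : H₁ →ₗ.[ℂ] H₀) : Prop :=
  Dense (Ac.domain : Set H₀) ∧ Dense (Bc.domain : Set H₁) ∧ Ac ≤ -Bc†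

/-- the operator `A = -B_0^*`, where `B_0` is the closure of `B_c` -/
noncomputable def opA (Bc : H₁ →ₗ.[ℂ] H₀) : H₀ →ₗ.[ℂ] H₁ := -(Bc.closure)†

/-- `ι_Y S ⊆ T ι_X` -/
def Intertwines (ιX : H₀ →ₗᵢ[ℂ] X) (ιY : H₁ →ₗᵢ[ℂ] Y) (S : H₀ →ₗ.[ℂ] H₁) (T : X →ₗ.[ℂ] Y) : Prop :=
  ∀ x : S.domain, ∃ h : ιX x ∈ T.domain, T ⟨ιX x, h⟩ = ιY (S x)

/-- the operator `𝒜` with the isometries `ι_X`, `ι_Y` is a closed-range extension -/
def IsExtension (𝒜 : X →ₗ.[ℂ] Y) (ιX : H₀ →ₗᵢ[ℂ] X) (ιY : H₁ →ₗᵢ[ℂ] Y)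
    (Ac : H₀ →ₗ.[ℂ] H₁) (Bc : H₁ →ₗ.[ℂ] H₀) : Prop :=
  Dense (𝒜.domain : Set X) ∧ 𝒜.IsClosed ∧ IsClosed (Set.range 𝒜) ∧
    Intertwines ιX ιY Ac.closure 𝒜 ∧ Intertwines ιY ιX Bc.closure (-𝒜†)

/-- the pair `(A_c, B_c)` admits a closed-range extension -/
def HasExtension (Ac : H₀ →ₗ.[ℂ] H₁) (Bc : H₁ →ₗ.[ℂ] H₀) : Prop :=
  ∃ (X Y : Type) (_ : NormedAddCommGroup X) (_ : InnerProductSpace ℂ X) (_ : CompleteSpace X)
    (_ : NormedAddCommGroup Y) (_ : InnerProductSpace ℂ Y) (_ : CompleteSpace Y)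
    (𝒜 : X →ₗ.[ℂ] Y) (ιX : H₀ →ₗᵢ[ℂ] X) (ιY : H₁ →ₗᵢ[ℂ] Y), IsExtension 𝒜 ιX ιY Ac Bc

variable (H₀ H₁) in
/-- on the spaces `H₀`, `H₁` there is a pair as asked for in the question -/
def AnswerYes : Prop :=
  ∃ (Ac : H₀ →ₗ.[ℂ] H₁) (Bc : H₁ →ₗ.[ℂ] H₀), IsPair Ac Bc ∧ HasExtension Ac Bc ∧
    ¬ IsClosed (Set.range Ac.closure) ∧ ¬ IsClosed (Set.range (opA Bc))

theorem closure_eq (f : H₀ →ₗ.[ℂ] H₁) (hf : f.IsClosed) : f.closure = f := by
  apply LinearPMap.eq_of_eq_graph
  rw [← hf.isClosable.graph_closure_eq_closure_graph]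
  exact IsClosed.submodule_topologicalClosure_eq hf

theorem mem_neg_adjoint_graph (f : H₁ →ₗ.[ℂ] H₀) (hf : Dense (f.domain : Set H₁)) (z : H₀) (y : H₁) :
    (z, y) ∈ (-f†).graph ↔ ∀ x w, (x, w) ∈ f.graph → inner ℂ w z + inner ℂ x y = 0 := by
  have h1 : (z, y) ∈ (-f†).graph ↔ (z, -y) ∈ f†.graph := by
    rw [LinearPMap.neg_graph, Submodule.mem_map]
    constructor
    · rintro ⟨⟨a, b⟩, hab, h⟩
      simp only [LinearMap.prodMap_apply, LinearMap.id_coe, id, LinearMap.neg_apply,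
        Prod.mk_inj] at h
      rw [← h.1, ← h.2, neg_neg]
      exact hab
    · intro h
      refine ⟨(z, -y), h, ?_⟩
      simp
  rw [h1, LinearPMap.adjoint_graph_eq_graph_adjoint hf, Submodule.mem_adjoint_iff]
  constructor
  · intro h x w hxw
    have := h x w hxw
    rw [inner_neg_right, sub_neg_eq_add] at this
    exact this
  · intro h x w hxw
    rw [inner_neg_right, sub_neg_eq_add]
    exact h x w hxw

end Defs

/-! ### The block space `E = ℓ²(ℕ)` -/

section Block

/-- `ℓ²(ℕ)` -/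
noncomputable abbrev E := lp (fun _ : ℕ => ℂ) 2

theorem inv_le_one' (n : ℕ) : ‖((n : ℂ))⁻¹‖ ≤ 1 := by
  rw [norm_inv, Complex.norm_natCast]
  rcases Nat.eq_zero_or_pos n with h | h
  · subst h
    simp
  · exact inv_le_one_of_one_le₀ (by exact_mod_cast h)

theorem R_bound (x : E) (s : Finset ℕ) :
    ∑ n ∈ s, ‖((n : ℂ))⁻¹ * x n‖ ^ (2 : ℝ≥0∞).toReal ≤ ‖x‖ ^ (2 : ℝ≥0∞).toReal := by
  refine le_trans (sum_le_sum fun n _ => ?_) (lp.sum_rpow_le_norm_rpow (by simp) x s)
  apply Real.rpow_le_rpow (norm_nonneg _) _ (by simp)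
  rw [norm_mul]
  calc ‖((n : ℂ))⁻¹‖ * ‖x n‖ ≤ 1 * ‖x n‖ := mul_le_mul_of_nonneg_right (inv_le_one' n) (norm_nonneg _)
    _ = ‖x n‖ := one_mul _

/-- the diagonal operator with entries `0, 1, 1/2, 1/3, …` -/
noncomputable def R : E →L[ℂ] E :=
  LinearMap.mkContinuous
    { toFun := fun x => (⟨fun n => ((n : ℂ))⁻¹ * x n, memℓp_gen' (R_bound x)⟩ : E)
      map_add' := fun x y => by
        apply lp.ext
        funext n
        show ((n : ℂ))⁻¹ * (x + y) n = ((n : ℂ))⁻¹ * x n + ((n : ℂ))⁻¹ * y n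
        rw [lp.coeFn_add, Pi.add_apply, mul_add]
      map_smul' := fun c x => by
        apply lp.ext
        funext n
        show ((n : ℂ))⁻¹ * (c • x) n = c * (((n : ℂ))⁻¹ * x n)
        rw [lp.coeFn_smul, Pi.smul_apply, smul_eq_mul]
        ring } 1
    (fun x => by
      apply lp.norm_le_of_forall_sum_le (by simp) (by positivity)
      intro s
      rw [one_mul]
      exact R_bound x s)

theorem R_apply (x : E) (n : ℕ) : R x n = ((n : ℂ))⁻¹ * x n := rfl

theorem u_mem : Memℓp (fun n : ℕ => ((n : ℂ))⁻¹) 2 := by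
  apply memℓp_gen
  have h : Summable (fun n : ℕ => 1 / (n : ℝ) ^ 2) := Real.summable_one_div_nat_pow.mpr one_lt_two
  refine h.congr (fun n => ?_)
  rw [ENNReal.toReal_ofNat, Real.rpow_ofNat, norm_inv, Complex.norm_natCast, inv_pow, one_div]

/-- the vector `(0, 1, 1/2, 1/3, …)` -/
noncomputable def u : E := ⟨fun n : ℕ => ((n : ℂ))⁻¹, u_mem⟩

theorem u_apply (n : ℕ) : u n = ((n : ℂ))⁻¹ := rfl

/-- the first unit vector -/
noncomputable def e₀ : E := lp.single 2 0 (1 : ℂ)

theorem e₀_apply (n : ℕ) : e₀ n = if n = 0 then 1 else 0 := by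
  unfold e₀
  rw [lp.single_apply, Pi.single_apply]

theorem inner_e₀ (x : E) : inner ℂ e₀ x = x 0 := by
  unfold e₀
  rw [lp.inner_single_left]
  simp

theorem R_symm (x y : E) : inner ℂ (R x) y = inner ℂ x (R y) := by
  rw [lp.inner_eq_tsum, lp.inner_eq_tsum]
  apply tsum_congr
  intro n
  rw [R_apply, R_apply]
  simp only [RCLike.inner_apply, map_mul, map_inv₀, Complex.conj_natCast]
  ring

/-- the inverse of the diagonal operator with entries `1/(k+1), 1, 2, 3, …` -/
noncomputable def K (k : ℕ) : E →L[ℂ] E := R + ((k : ℂ) + 1) • (innerSL ℂ e₀).smulRight e₀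

theorem K_eq (k : ℕ) (x : E) : K k x = R x + (((k : ℂ) + 1) * x 0) • e₀ := by
  unfold K
  simp only [add_apply, smul_apply,
    ContinuousLinearMap.smulRight_apply, innerSL_apply_apply, inner_e₀, smul_smul]

theorem K_zero (k : ℕ) (x : E) : K k x 0 = ((k : ℂ) + 1) * x 0 := by
  rw [K_eq, lp.coeFn_add, Pi.add_apply, lp.coeFn_smul, Pi.smul_apply, R_apply, e₀_apply]
  simp

theorem K_succ (k : ℕ) (x : E) (n : ℕ) (hn : n ≠ 0) : K k x n = ((n : ℂ))⁻¹ * x n := by
  rw [K_eq, lp.coeFn_add, Pi.add_apply, lp.coeFn_smul, Pi.smul_apply, R_apply, e₀_apply, if_neg hn]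
  simp

theorem K_symm (k : ℕ) (x y : E) : inner ℂ (K k x) y = inner ℂ x (K k y) := by
  rw [K_eq, K_eq, inner_add_left, inner_add_right, R_symm, inner_smul_left, inner_smul_right,
    inner_e₀, ← inner_conj_symm x e₀, inner_e₀]
  simp only [map_mul, map_add, Complex.conj_natCast, map_one]
  ring

theorem K_injective (k : ℕ) (x : E) (h : K k x = 0) : x = 0 := by
  apply lp.ext
  funext n
  have h1 : K k x n = 0 := by rw [h]; rfl
  rcases Nat.eq_zero_or_pos n with hn | hn
  · subst hn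
    rw [K_zero] at h1
    have h2 : ((k : ℂ) + 1) ≠ 0 := by exact_mod_cast Nat.succ_ne_zero k
    exact (mul_eq_zero.mp h1).resolve_left h2
  · rw [K_succ k x n hn.ne'] at h1
    have h2 : ((n : ℂ))⁻¹ ≠ 0 := by
      apply inv_ne_zero
      exact_mod_cast hn.ne'
    exact (mul_eq_zero.mp h1).resolve_left h2

/-- the vector `(k+1, 1, 1/2, 1/3, …)` -/
noncomputable def m (k : ℕ) : E := u + ((k : ℂ) + 1) • e₀

theorem m_zero (k : ℕ) : m k 0 = (k : ℂ) + 1 := by
  unfold m
  rw [lp.coeFn_add, Pi.add_apply, lp.coeFn_smul, Pi.smul_apply, u_apply, e₀_apply]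
  simp

theorem m_succ (k n : ℕ) (hn : n ≠ 0) : m k n = ((n : ℂ))⁻¹ := by
  unfold m
  rw [lp.coeFn_add, Pi.add_apply, lp.coeFn_smul, Pi.smul_apply, u_apply, e₀_apply, if_neg hn]
  simp

theorem tendsto_coord (x : E) : Tendsto (fun n => ‖x n‖ ^ (2 : ℝ≥0∞).toReal) atTop (𝓝 0) :=
  ((lp.memℓp x).summable (by simp)).tendsto_atTop_zero

/-- `m_k` is not in the range of `K_k` -/
theorem K_eq_smul_m (k : ℕ) (x : E) (c : ℂ) (h : K k x = c • m k) : x = 0 := by
  have h1 : ∀ n : ℕ, n ≠ 0 → x n = c := by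
    intro n hn
    have h2 : K k x n = (c • m k) n := by rw [h]
    rw [K_succ k x n hn, lp.coeFn_smul, Pi.smul_apply, m_succ k n hn, smul_eq_mul, mul_comm] at h2
    have h3 : ((n : ℂ))⁻¹ ≠ 0 := by
      apply inv_ne_zero
      exact_mod_cast hn
    exact mul_right_cancel₀ h3 h2
  have hc : c = 0 := by
    have h2 := tendsto_coord x
    have h3 : Tendsto (fun n : ℕ => ‖x n‖ ^ (2 : ℝ≥0∞).toReal) atTop
        (𝓝 (‖c‖ ^ (2 : ℝ≥0∞).toReal)) := by
      apply tendsto_const_nhds.congr'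
      filter_upwards [eventually_ge_atTop 1] with n hn
      rw [h1 n (by omega)]
    have h4 := tendsto_nhds_unique h3 h2
    rw [ENNReal.toReal_ofNat, Real.rpow_ofNat] at h4
    exact norm_eq_zero.mp (pow_eq_zero_iff two_ne_zero |>.mp h4)
  rw [hc, zero_smul] at h
  exact K_injective k x h

/-- bounded solution operators -/
noncomputable def S (c : Bool) : E →L[ℂ] E :=
  if c then R - (innerSL ℂ e₀).smulRight u else R - (innerSL ℂ u).smulRight e₀

theorem S_false (k : ℕ) (y : E) (h : inner ℂ (m k) y = 0) : S false y = K k y := by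
  unfold S
  rw [if_neg (by simp), K_eq]
  simp only [sub_apply, ContinuousLinearMap.smulRight_apply,
    innerSL_apply_apply]
  unfold m at h
  rw [inner_add_left, inner_smul_left, inner_e₀] at h
  simp only [map_add, Complex.conj_natCast, map_one] at h
  have h2 : inner ℂ u y = -(((k : ℂ) + 1) * y 0) := eq_neg_of_add_eq_zero_left h
  rw [h2, neg_smul, sub_neg_eq_add]

theorem S_true (k : ℕ) (v y : E) (h : inner ℂ (m k) v = 0) :
    inner ℂ v (S true y) = inner ℂ (K k v) y := by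
  have h1 : S true y = K k y - (y 0) • m k := by
    unfold S m
    rw [if_pos (by rfl), K_eq]
    simp only [sub_apply, ContinuousLinearMap.smulRight_apply,
      innerSL_apply_apply, inner_e₀, smul_add, smul_smul]
    rw [mul_comm ((k : ℂ) + 1) (y 0)]
    abel
  have h2 : inner ℂ v (m k) = 0 := by
    rw [← inner_conj_symm, h, map_zero]
  rw [h1, inner_sub_right, inner_smul_right, h2, mul_zero, sub_zero, K_symm]

theorem K_e₀ (k : ℕ) : K k ((((k : ℂ) + 1)⁻¹) • e₀) = e₀ := by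
  have h2 : ((k : ℂ) + 1) ≠ 0 := by exact_mod_cast Nat.succ_ne_zero k
  apply lp.ext
  funext n
  rcases Nat.eq_zero_or_pos n with hn | hn
  · subst hn
    rw [K_zero, lp.coeFn_smul, Pi.smul_apply, e₀_apply, if_pos rfl, smul_eq_mul, mul_one,
      mul_inv_cancel₀ h2]
  · rw [K_succ k _ n hn.ne', lp.coeFn_smul, Pi.smul_apply, e₀_apply, if_neg hn.ne', smul_zero,
      mul_zero]

end Block

/-! ### The space `H` and the operators -/

section Main

/-- `ℓ²(ℕ × Bool; ℓ²(ℕ))` -/
noncomputable abbrev H := lp (fun _ : ℕ × Bool => E) 2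

/-- vectors supported on one block -/
noncomputable def sg (κ : ℕ × Bool) (v : E) : H := lp.single 2 κ v

theorem sg_self (κ : ℕ × Bool) (v : E) : sg κ v κ = v :=
  lp.single_apply_self (E := fun _ : ℕ × Bool => E) 2 κ v

theorem sg_ne (κ κ' : ℕ × Bool) (v : E) (h : κ' ≠ κ) : sg κ v κ' = 0 :=
  lp.single_apply_ne (E := fun _ : ℕ × Bool => E) 2 κ v h

theorem inner_sg_left (κ : ℕ × Bool) (v : E) (x : H) : inner ℂ (sg κ v) x = inner ℂ v (x κ) :=
  lp.inner_single_left κ v x

theorem inner_sg_right (κ : ℕ × Bool) (v : E) (x : H) : inner ℂ x (sg κ v) = inner ℂ (x κ) v :=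
  lp.inner_single_right κ v x

/-- the graph `{(x, y) : x_κ = s K_k y_κ, and y_κ ⟂ m_k when κ = (k, c)}` -/
noncomputable def gr (s : ℂ) (c : Bool) : Submodule ℂ (H × H) where
  carrier := {z | ∀ κ : ℕ × Bool, z.1 κ = s • K κ.1 (z.2 κ) ∧
    (κ.2 = c → inner ℂ (m κ.1) (z.2 κ) = 0)}
  add_mem' := by
    intro z w hz hw κ
    obtain ⟨h1, h2⟩ := hz κ
    obtain ⟨h3, h4⟩ := hw κ
    refine ⟨?_, fun h => ?_⟩
    · show z.1 κ + w.1 κ = s • K κ.1 (z.2 κ + w.2 κ)
      rw [h1, h3, map_add, smul_add]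
    · show inner ℂ (m κ.1) (z.2 κ + w.2 κ) = 0
      rw [inner_add_right, h2 h, h4 h, add_zero]
  zero_mem' := by
    intro κ
    refine ⟨?_, fun h => ?_⟩
    · show (0 : E) = s • K κ.1 (0 : E)
      rw [map_zero, smul_zero]
    · show inner ℂ (m κ.1) (0 : E) = 0
      rw [inner_zero_right]
  smul_mem' := by
    intro a z hz κ
    obtain ⟨h1, h2⟩ := hz κ
    refine ⟨?_, fun h => ?_⟩
    · show a • z.1 κ = s • K κ.1 (a • z.2 κ)
      rw [h1, map_smul, smul_comm]
    · show inner ℂ (m κ.1) (a • z.2 κ) = 0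
      rw [inner_smul_right, h2 h, mul_zero]

theorem mem_gr (s : ℂ) (c : Bool) (x y : H) : (x, y) ∈ gr s c ↔
    ∀ κ : ℕ × Bool, x κ = s • K κ.1 (y κ) ∧ (κ.2 = c → inner ℂ (m κ.1) (y κ) = 0) := Iff.rfl

theorem continuous_coord (κ : ℕ × Bool) : Continuous (fun x : H => x κ) :=
  (lp.evalCLM ℂ (fun _ : ℕ × Bool => E) 2 κ).continuous

theorem gr_closed (s : ℂ) (c : Bool) : IsClosed (gr s c : Set (H × H)) := by
  have : (gr s c : Set (H × H)) = ⋂ κ : ℕ × Bool, ({z | z.1 κ = s • K κ.1 (z.2 κ)} ∩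
      {z | κ.2 = c → inner ℂ (m κ.1) (z.2 κ) = 0}) := by
    ext z
    simp only [Set.mem_iInter]
    exact Iff.rfl
  rw [this]
  apply isClosed_iInter
  intro κ
  apply IsClosed.inter
  · apply isClosed_eq
    · exact (continuous_coord κ).comp continuous_fst
    · exact ((K κ.1).continuous.comp ((continuous_coord κ).comp continuous_snd)).const_smul s
  · by_cases h : κ.2 = c
    · simp only [h, true_imp_iff]
      apply isClosed_eq _ continuous_const
      exact (innerSL ℂ (m κ.1)).continuous.comp ((continuous_coord κ).comp continuous_snd)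
    · simp only [h, false_imp_iff]
      exact isClosed_univ

/-- the closed operators -/
noncomputable def T (s : ℂ) (c : Bool) : H →ₗ.[ℂ] H := (gr s c).toLinearPMap

theorem T_graph (s : ℂ) (hs : s ≠ 0) (c : Bool) : (T s c).graph = gr s c := by
  apply Submodule.toLinearPMap_graph_eq
  rintro ⟨x, y⟩ hxy hx
  simp only at hx
  subst hx
  show y = 0
  apply lp.ext
  funext κ
  have h := (hxy κ).1
  have h1 : (0 : E) = s • K κ.1 (y κ) := h
  have h2 : K κ.1 (y κ) = 0 := (smul_eq_zero.mp h1.symm).resolve_left hs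
  exact K_injective _ _ h2

theorem T_closed (s : ℂ) (hs : s ≠ 0) (c : Bool) : (T s c).IsClosed := by
  unfold LinearPMap.IsClosed
  rw [T_graph s hs c]
  exact gr_closed s c

theorem sg_mem_gr (s : ℂ) (c : Bool) (κ : ℕ × Bool) (v : E)
    (h : κ.2 = c → inner ℂ (m κ.1) v = 0) : (sg κ (s • K κ.1 v), sg κ v) ∈ gr s c := by
  rw [mem_gr]
  intro κ'
  by_cases hκ : κ' = κ
  · subst hκ
    rw [sg_self, sg_self]
    exact ⟨rfl, h⟩
  · rw [sg_ne _ _ _ hκ, sg_ne _ _ _ hκ, map_zero, smul_zero, inner_zero_right]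
    exact ⟨rfl, fun _ => rfl⟩

theorem T_dense (s : ℂ) (hs : s ≠ 0) (c : Bool) : Dense ((T s c).domain : Set H) := by
  rw [Submodule.dense_iff_topologicalClosure_eq_top, Submodule.topologicalClosure_eq_top_iff,
    Submodule.eq_bot_iff]
  intro w hw
  rw [Submodule.mem_orthogonal] at hw
  have key : ∀ (κ : ℕ × Bool) (v : E), (κ.2 = c → inner ℂ (m κ.1) v = 0) →
      inner ℂ v (K κ.1 (w κ)) = 0 := by
    intro κ v hv
    have h1 : sg κ (s • K κ.1 v) ∈ (T s c).domain := by
      rw [LinearPMap.mem_domain_iff]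
      refine ⟨sg κ v, ?_⟩
      rw [T_graph s hs c]
      exact sg_mem_gr s c κ v hv
    have h2 := hw _ h1
    rw [inner_sg_left, inner_smul_left, K_symm] at h2
    exact (mul_eq_zero.mp h2).resolve_left (by simpa using hs)
  apply lp.ext
  funext κ
  show w κ = 0
  by_cases hκ : κ.2 = c
  · have h1 : K κ.1 (w κ) ∈ (ℂ ∙ (m κ.1))ᗮᗮ := by
      rw [Submodule.mem_orthogonal]
      intro v hv
      apply key κ v
      intro _
      exact Submodule.mem_orthogonal_singleton_iff_inner_right.mp hv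
    rw [Submodule.orthogonal_orthogonal, Submodule.mem_span_singleton] at h1
    obtain ⟨a, ha⟩ := h1
    exact K_eq_smul_m κ.1 (w κ) a ha.symm
  · apply K_injective κ.1
    have h1 := key κ (K κ.1 (w κ)) (fun h => absurd h hκ)
    exact inner_self_eq_zero.mp h1

/-- the operator `A` -/
theorem opA_eq : opA (T (-1) true) = -(T (-1) true)† := by
  unfold opA
  rw [closure_eq _ (T_closed _ (by simp) _)]

theorem mem_A (z y : H) : (z, y) ∈ (-(T (-1) true)†).graph ↔
    ∀ x w, (x, w) ∈ gr (-1) true → inner ℂ w z + inner ℂ x y = 0 := by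
  rw [mem_neg_adjoint_graph _ (T_dense (-1) (by simp) true), T_graph (-1) (by simp) true]

theorem inner_sum (x w z y : H) (h : ∀ κ, inner ℂ (w κ) (z κ) + inner ℂ (x κ) (y κ) = (0 : ℂ)) :
    inner ℂ w z + inner ℂ x y = (0 : ℂ) := by
  have h1 := (lp.hasSum_inner (𝕜 := ℂ) w z).add (lp.hasSum_inner (𝕜 := ℂ) x y)
  have h2 : (fun κ : ℕ × Bool => inner ℂ (w κ) (z κ) + inner ℂ (x κ) (y κ)) = fun _ => (0 : ℂ) :=
    funext h
  rw [h2] at h1
  exact h1.unique hasSum_zero

theorem le_A : (T 1 false) ≤ -(T (-1) true)† := by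
  rw [← LinearPMap.le_graph_iff, T_graph 1 one_ne_zero false]
  rintro ⟨z, y⟩ hzy
  rw [mem_A]
  intro x w hxw
  apply inner_sum
  intro κ
  rw [(hzy κ).1, (hxw κ).1]
  simp only [one_smul, neg_smul, inner_neg_left]
  rw [K_symm]
  exact add_neg_cancel _

/-- the closed subspace that will be the range of the extension -/
noncomputable def gM : Submodule ℂ (H × H) where
  carrier := {z | ∀ k : ℕ, inner ℂ (m k) (z.2 (k, false)) = 0}
  add_mem' := by
    intro z w hz hw k
    show inner ℂ (m k) (z.2 (k, false) + w.2 (k, false)) = 0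
    rw [inner_add_right, hz k, hw k, add_zero]
  zero_mem' := by
    intro k
    show inner ℂ (m k) (0 : E) = 0
    rw [inner_zero_right]
  smul_mem' := by
    intro a z hz k
    show inner ℂ (m k) (a • z.2 (k, false)) = 0
    rw [inner_smul_right, hz k, mul_zero]

theorem mem_gM (x y : H) : (x, y) ∈ gM ↔ ∀ k : ℕ, inner ℂ (m k) (y (k, false)) = 0 := Iff.rfl

theorem gM_closed : IsClosed {y : H | ∀ k : ℕ, inner ℂ (m k) (y (k, false)) = 0} := by
  have : {y : H | ∀ k : ℕ, inner ℂ (m k) (y (k, false)) = 0} =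
      ⋂ k : ℕ, {y | inner ℂ (m k) (y (k, false)) = 0} := by
    ext y
    simp
  rw [this]
  apply isClosed_iInter
  intro k
  apply isClosed_eq _ continuous_const
  exact (innerSL ℂ (m k)).continuous.comp (continuous_coord (k, false))

/-- the extension -/
noncomputable def Ext : H →ₗ.[ℂ] H := ((-(T (-1) true)†).graph ⊓ gM).toLinearPMap

theorem Ext_graph : Ext.graph = (-(T (-1) true)†).graph ⊓ gM := by
  apply Submodule.toLinearPMap_graph_eq
  rintro ⟨x, y⟩ hxy hx
  exact LinearPMap.graph_fst_eq_zero_snd _ hxy.1 hx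

theorem A_closed : (-(T (-1) true)†).IsClosed := by
  unfold LinearPMap.IsClosed
  have : ((-(T (-1) true)†).graph : Set (H × H)) =
      ⋂ (x : H) (w : H) (_ : (x, w) ∈ gr (-1) true), {z | inner ℂ w z.1 + inner ℂ x z.2 = 0} := by
    ext ⟨z, y⟩
    simp only [Set.mem_iInter]
    exact mem_A z y
  rw [this]
  refine isClosed_iInter fun x => isClosed_iInter fun w => isClosed_iInter fun _ => ?_
  apply isClosed_eq _ continuous_const
  exact ((innerSL ℂ w).continuous.comp continuous_fst).add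
    ((innerSL ℂ x).continuous.comp continuous_snd)

theorem Ext_closed : Ext.IsClosed := by
  unfold LinearPMap.IsClosed
  rw [Ext_graph]
  exact IsClosed.inter A_closed (gM_closed.preimage continuous_snd)

theorem T_le_Ext : T 1 false ≤ Ext := by
  rw [← LinearPMap.le_graph_iff, Ext_graph]
  refine le_inf (LinearPMap.le_graph_iff.mpr le_A) ?_
  rw [T_graph 1 one_ne_zero false]
  rintro ⟨x, y⟩ hxy k
  exact (hxy (k, false)).2 rfl

theorem Ext_dense : Dense (Ext.domain : Set H) :=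
  (T_dense 1 one_ne_zero false).mono T_le_Ext.1

theorem S_mem (y : H) : Memℓp (fun κ : ℕ × Bool => S κ.2 (y κ)) 2 := by
  set C : ℝ := max ‖S true‖ ‖S false‖ with hC
  have hC0 : 0 ≤ C := le_max_of_le_left (norm_nonneg _)
  apply memℓp_gen' (C := (C * ‖y‖) ^ (2 : ℝ≥0∞).toReal)
  intro s
  calc ∑ κ ∈ s, ‖S κ.2 (y κ)‖ ^ (2 : ℝ≥0∞).toReal ≤
        ∑ κ ∈ s, C ^ (2 : ℝ≥0∞).toReal * ‖y κ‖ ^ (2 : ℝ≥0∞).toReal := by
        apply sum_le_sum
        intro κ _
        rw [← Real.mul_rpow hC0 (norm_nonneg _)]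
        apply Real.rpow_le_rpow (norm_nonneg _) _ (by simp)
        refine (ContinuousLinearMap.le_opNorm _ _).trans ?_
        apply mul_le_mul_of_nonneg_right _ (norm_nonneg _)
        rcases hκ : κ.2 with _ | _
        · exact le_max_right _ _
        · exact le_max_left _ _
    _ = C ^ (2 : ℝ≥0∞).toReal * ∑ κ ∈ s, ‖y κ‖ ^ (2 : ℝ≥0∞).toReal := by rw [mul_sum]
    _ ≤ C ^ (2 : ℝ≥0∞).toReal * ‖y‖ ^ (2 : ℝ≥0∞).toReal := by
        apply mul_le_mul_of_nonneg_left (lp.sum_rpow_le_norm_rpow (by simp) y s)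
        positivity
    _ = (C * ‖y‖) ^ (2 : ℝ≥0∞).toReal := by rw [Real.mul_rpow hC0 (norm_nonneg _)]

theorem Ext_range : Set.range Ext = {y : H | ∀ k : ℕ, inner ℂ (m k) (y (k, false)) = 0} := by
  ext y
  rw [LinearPMap.mem_range_iff, Ext_graph]
  constructor
  · rintro ⟨x, hx⟩
    exact hx.2
  · intro hy
    refine ⟨⟨fun κ => S κ.2 (y κ), S_mem y⟩, ?_, hy⟩
    show _ ∈ (-(T (-1) true)†).graph
    rw [mem_A]
    intro x w hxw
    apply inner_sum
    rintro ⟨k, c⟩
    show inner ℂ (w (k, c)) (S c (y (k, c))) + inner ℂ (x (k, c)) (y (k, c)) = 0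
    rw [(hxw (k, c)).1]
    simp only [neg_smul, one_smul, inner_neg_left]
    cases c
    · rw [S_false k _ (hy k), K_symm]
      exact add_neg_cancel _
    · rw [S_true k _ _ ((hxw (k, true)).2 rfl)]
      exact add_neg_cancel _

theorem T_le_neg_Ext_adjoint : T (-1) true ≤ -Ext† := by
  rw [← LinearPMap.le_graph_iff, T_graph (-1) (by simp) true]
  rintro ⟨x, w⟩ hxw
  rw [mem_neg_adjoint_graph _ Ext_dense, Ext_graph]
  intro a b hab
  have h1 := (mem_A a b).mp hab.1 x w hxw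
  have h2 := congrArg (starRingEnd ℂ) h1
  rw [map_add, inner_conj_symm, inner_conj_symm, map_zero, add_comm] at h2
  exact h2

/-- the vector `(1/(k+1)) e₀` on the blocks `(k, c)` -/
theorem bad_mem (c : Bool) :
    Memℓp (fun κ : ℕ × Bool => if κ.2 = c then (((κ.1 : ℂ) + 1)⁻¹) • e₀ else (0 : E)) 2 := by
  apply memℓp_gen
  have hinj : Function.Injective (fun k : ℕ => ((k, c) : ℕ × Bool)) := by
    intro i j h
    exact (Prod.mk.inj h).1
  rw [← hinj.summable_iff]
  · have h2 : Summable (fun k : ℕ => 1 / ((k : ℝ) + 1) ^ 2) := by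
      have := (summable_nat_add_iff 1).mpr (Real.summable_one_div_nat_pow.mpr one_lt_two)
      simpa using this
    have he : ‖e₀‖ = 1 := by
      unfold e₀
      rw [lp.norm_single (by norm_num)]
      simp
    refine h2.congr (fun k => ?_)
    simp only [Function.comp_apply, if_true, ENNReal.toReal_ofNat, Real.rpow_ofNat, norm_smul,
      norm_inv, he, mul_one]
    have h3 : ‖(k : ℂ) + 1‖ = (k : ℝ) + 1 := by
      have : ((k : ℂ) + 1) = (((k : ℝ) + 1 : ℝ) : ℂ) := by push_cast; ring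
      rw [this, Complex.norm_real, Real.norm_of_nonneg (by positivity)]
    rw [h3, inv_pow, one_div]
  · rintro ⟨k, c'⟩ hj
    have : c' ≠ c := by
      rintro rfl
      exact hj ⟨k, rfl⟩
    simp [this]

theorem not_closed (f : H →ₗ.[ℂ] H) (c : Bool)
    (h1 : ∀ (k : ℕ) (v : E), (sg (k, c) (K k v), sg (k, c) v) ∈ f.graph)
    (h2 : ∀ z y, (z, y) ∈ f.graph → ∀ k : ℕ, z (k, c) = K k (y (k, c))) :
    ¬ IsClosed (Set.range f) := by
  intro hcl
  set y : H := ⟨_, bad_mem c⟩ with hy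
  have hyk : ∀ κ : ℕ × Bool, y κ = if κ.2 = c then (((κ.1 : ℂ) + 1)⁻¹) • e₀ else (0 : E) :=
    fun _ => rfl
  have hmem : y ∈ Set.range f := by
    have h3 := lp.hasSum_single (p := 2) (by norm_num) y
    refine hcl.mem_of_tendsto h3 (Eventually.of_forall fun s => ?_)
    show _ ∈ Set.range f
    rw [LinearPMap.mem_range_iff]
    have h4 : ∀ κ : ℕ × Bool, ∃ x : H, (x, lp.single 2 κ (y κ)) ∈ f.graph := by
      rintro ⟨k, c'⟩
      by_cases hc : c' = c
      · subst hc
        exact ⟨_, h1 k (y (k, c'))⟩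
      · refine ⟨0, ?_⟩
        have h5 : y (k, c') = 0 := by
          rw [hyk]
          exact if_neg hc
        rw [h5]
        have h6 : (lp.single 2 (k, c') (0 : E) : H) = 0 := by simp
        rw [h6]
        exact f.graph.zero_mem
    choose x hx using h4
    refine ⟨∑ κ ∈ s, x κ, ?_⟩
    have h5 : (∑ κ ∈ s, x κ, ∑ κ ∈ s, (lp.single 2 κ (y κ) : H)) =
        ∑ κ ∈ s, (x κ, (lp.single 2 κ (y κ) : H)) := by
      apply Prod.ext
      · rw [Prod.fst_sum]
      · rw [Prod.snd_sum]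
    rw [h5]
    exact Submodule.sum_mem _ (fun κ _ => hx κ)
  rw [LinearPMap.mem_range_iff] at hmem
  obtain ⟨z, hz⟩ := hmem
  have h3 : ∀ k : ℕ, z (k, c) = e₀ := by
    intro k
    rw [h2 z y hz k, hyk, if_pos rfl]
    exact K_e₀ k
  have h4 := (lp.memℓp z).summable (by simp)
  have hinj : Function.Injective (fun k : ℕ => ((k, c) : ℕ × Bool)) := by
    intro i j h
    exact (Prod.mk.inj h).1
  have h5 := (h4.comp_injective hinj).tendsto_atTop_zero
  have he : ‖e₀‖ = 1 := by
    unfold e₀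
    rw [lp.norm_single (by norm_num)]
    simp
  have h6 : ((fun i : ℕ × Bool => ‖z i‖ ^ (2 : ℝ≥0∞).toReal) ∘ fun k : ℕ => ((k, c) : ℕ × Bool)) =
      fun _ => (1 : ℝ) := by
    funext k
    simp only [Function.comp_apply]
    rw [h3 k, he, Real.one_rpow]
  rw [h6] at h5
  exact one_ne_zero (tendsto_nhds_unique tendsto_const_nhds h5)

theorem range_T_not_closed : ¬ IsClosed (Set.range (T 1 false)) := by
  apply not_closed _ true
  · intro k v
    rw [T_graph 1 one_ne_zero false]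
    have := sg_mem_gr 1 false (k, true) v (fun h => absurd h (by simp))
    rw [one_smul] at this
    exact this
  · intro z y hzy k
    rw [T_graph 1 one_ne_zero false] at hzy
    have := (hzy (k, true)).1
    rw [one_smul] at this
    exact this

theorem range_A_not_closed : ¬ IsClosed (Set.range (-(T (-1) true)†)) := by
  apply not_closed _ false
  · intro k v
    rw [mem_A]
    intro x w hxw
    rw [inner_sg_right, inner_sg_right, (hxw (k, false)).1]
    simp only [neg_smul, one_smul, inner_neg_left]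
    rw [K_symm]
    exact add_neg_cancel _
  · intro z y hzy k
    rw [mem_A] at hzy
    have h1 : ∀ v : E, inner ℂ v (z (k, false) - K k (y (k, false))) = 0 := by
      intro v
      have h2 := hzy _ _ (sg_mem_gr (-1) true (k, false) v (fun h => absurd h (by simp)))
      rw [inner_sg_left, inner_sg_left] at h2
      simp only [neg_smul, one_smul, inner_neg_left] at h2
      rw [K_symm] at h2
      rw [inner_sub_right, sub_eq_add_neg]
      exact h2
    exact sub_eq_zero.mp (inner_self_eq_zero.mp (h1 _))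

end Main

theorem answer : AnswerYes H H := by
  refine ⟨T 1 false, T (-1) true, ⟨T_dense 1 one_ne_zero false, T_dense (-1) (by simp) true, le_A⟩,
    ⟨H, H, inferInstance, inferInstance, inferInstance, inferInstance, inferInstance, inferInstance,
      Ext, LinearIsometry.id, LinearIsometry.id, Ext_dense, Ext_closed, ?_, ?_, ?_⟩, ?_, ?_⟩
  · rw [Ext_range]
    exact gM_closed
  · rw [closure_eq _ (T_closed 1 one_ne_zero false)]
    intro x
    exact ⟨T_le_Ext.1 x.2, (T_le_Ext.2 rfl).symm⟩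
  · rw [closure_eq _ (T_closed (-1) (by simp) true)]
    intro x
    exact ⟨T_le_neg_Ext_adjoint.1 x.2, (T_le_neg_Ext_adjoint.2 rfl).symm⟩
  · rw [closure_eq _ (T_closed 1 one_ne_zero false)]
    exact range_T_not_closed
  · rw [opA_eq]
    exact range_A_not_closed

/-- There are Hilbert spaces and a pair on them that admits a closed-range extension although
neither the range of `A_0` (the closure of `A_c`) nor the range of `A` is closed. -/
theorem result : ∃ (H₀ H₁ : Type) (_ : NormedAddCommGroup H₀) (_ : InnerProductSpace ℂ H₀)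
    (_ : CompleteSpace H₀) (_ : NormedAddCommGroup H₁) (_ : InnerProductSpace ℂ H₁)
    (_ : CompleteSpace H₁), AnswerYes H₀ H₁ :=
  ⟨H, H, inferInstance, inferInstance, inferInstance, inferInstance, inferInstance, inferInstance,
    answer⟩

end Pool.Agent.Results.MP_790317_an.RangesNotClosed
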